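import Pool.Agent.H22.LG.Stm

/-! Crew LG, part INV: two commuting involutions. -/

set_option autoImplicit false

namespace H50.LG

open Pool.Agent.Y382.PAR H22.CM H22.LG Matrix

variable {F : Type} [Field F] [Fintype F] [DecidableEq F]

/-- `1 + e_0 r` -/
def T {m : ℕ} (r : Fin (m + 1) → F) : Matrix (Fin (m + 1)) (Fin (m + 1)) F :=
  fun i j => (if i = j then 1 else 0) + (if i = 0 then r j else 0)

/-- `e_0 r` -/
def V {m : ℕ} (r : Fin (m + 1) → F) : Matrix (Fin (m + 1)) (Fin (m + 1)) F :=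
  fun i j => if i = 0 then r j else 0

omit [Fintype F] [DecidableEq F] in
theorem T_eq {m : ℕ} (r : Fin (m + 1) → F) : T r = 1 + V r := by
  ext i j
  simp only [T, V, Matrix.add_apply, Matrix.one_apply]

omit [Fintype F] [DecidableEq F] in
theorem T_mul {m : ℕ} (r s : Fin (m + 1) → F) (hr : r 0 = 0) : T r * T s = T (r + s) := by
  have h1 : V r * V s = 0 := by
    ext i j
    rw [Matrix.mul_apply, Matrix.zero_apply]
    apply Finset.sum_eq_zero
    intro l _
    simp only [V]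
    by_cases h : l = 0
    · rw [h, hr]; simp
    · rw [if_neg h, mul_zero]
  have h2 : V (r + s) = V r + V s := by
    ext i j
    simp only [V, Matrix.add_apply, Pi.add_apply]
    by_cases h : i = 0 <;> simp [h]
  rw [T_eq, T_eq, T_eq, h2, add_mul, mul_add, one_mul, one_mul, mul_add, mul_one, h1, add_zero]
  abel

omit [Fintype F] [DecidableEq F] in
theorem T_zero {m : ℕ} : T (0 : Fin (m + 1) → F) = 1 := by
  ext i j
  simp [T, Matrix.one_apply]

omit [Fintype F] [DecidableEq F] in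
theorem T_low {m : ℕ} (r : Fin (m + 1) → F) (i j : Fin (m + 1)) (h : j < i) : T r i j = 0 := by
  have h1 : i ≠ j := ne_of_gt h
  have h2 : i ≠ 0 := by
    rintro rfl
    exact absurd h (by simp)
  simp [T, h1, h2]

omit [Fintype F] [DecidableEq F] in
theorem T_det {m : ℕ} (r : Fin (m + 1) → F) (hr : r 0 = 0) : (T r).det = 1 := by
  have h1 : (T r).BlockTriangular id := by
    intro i j hij
    exact T_low r i j hij
  rw [Matrix.det_of_isUpperTriangular h1]
  apply Finset.prod_eq_one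
  intro i _
  by_cases h : i = 0
  · simp [T, h, hr]
  · simp [T, h]

theorem char_two {n : ℕ} (h2 : (2 : F) = 0) (m : ℕ) (hn : n = m + 1) (r s : Fin (m + 1) → F)
    (hr0 : r 0 = 0) (hs0 : s 0 = 0) (hr : ∃ j, j ≠ 0 ∧ r j ≠ 0) (hs : ∃ j, j ≠ 0 ∧ s j ≠ 0)
    (hrs : ∃ j, j ≠ 0 ∧ r j + s j ≠ 0) :
    ∃ a b : GL (Fin n) F, a ∈ P n n F ∧ b ∈ P n n F ∧ a.1.det = 1 ∧ b.1.det = 1 ∧ a * a = 1 ∧
    b * b = 1 ∧ a * b = b * a ∧ ¬ Sc a ∧ ¬ Sc b ∧ ¬ Sc (a⁻¹ * b) := by
  subst hn
  have hself : ∀ v : Fin (m + 1) → F, v + v = 0 := by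
    intro v
    funext i
    rw [Pi.add_apply, ← two_mul, h2, zero_mul]; rfl
  have hsq : ∀ v : Fin (m + 1) → F, v 0 = 0 → T v * T v = 1 := by
    intro v hv
    rw [T_mul v v hv, hself v, T_zero]
  have hns : ∀ v : Fin (m + 1) → F, (∃ j, j ≠ 0 ∧ v j ≠ 0) →
      ¬ ∃ c : F, ∀ i j : Fin (m + 1), T v i j = if i = j then c else 0 := by
    rintro v ⟨j, hj, hv⟩ ⟨c, hc⟩
    have := hc 0 j
    rw [if_neg (Ne.symm hj)] at this
    apply hv
    simpa [T, Ne.symm hj] using this
  let a : GL (Fin (m + 1)) F := ⟨T r, T r, hsq r hr0, hsq r hr0⟩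
  let b : GL (Fin (m + 1)) F := ⟨T s, T s, hsq s hs0, hsq s hs0⟩
  have ha : a * a = 1 := Units.ext (hsq r hr0)
  have hb : b * b = 1 := Units.ext (hsq s hs0)
  have hainv : a⁻¹ = a := inv_eq_of_mul_eq_one_right ha
  refine ⟨a, b, ?_, ?_, T_det r hr0, T_det s hs0, ha, hb, ?_, hns r hr, hns s hs, ?_⟩
  · rw [mem_P]
    intro i j _ hij
    exact T_low r i j hij
  · rw [mem_P]
    intro i j _ hij
    exact T_low s i j hij
  · apply Units.ext
    change T r * T s = T s * T r
    rw [T_mul r s hr0, T_mul s r hs0, add_comm r s]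
  · rw [hainv]
    have h3 : (a * b).1 = T (r + s) := T_mul r s hr0
    rintro ⟨c, hc⟩
    rw [h3] at hc
    exact hns (r + s) hrs ⟨c, hc⟩

theorem char_ne_two {n : ℕ} (h2 : (2 : F) ≠ 0) (m : ℕ) (hn : n = m + 3) :
    ∃ a b : GL (Fin n) F, a ∈ P n n F ∧ b ∈ P n n F ∧ a.1.det = 1 ∧ b.1.det = 1 ∧ a * a = 1 ∧
    b * b = 1 ∧ a * b = b * a ∧ ¬ Sc a ∧ ¬ Sc b ∧ ¬ Sc (a⁻¹ * b) := by
  subst hn
  have hneg : (-1 : F) ≠ 1 := by
    intro h
    apply h2
    have : (1 : F) + 1 = 0 := by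
      nth_rewrite 1 [← h]
      ring
    rw [← one_add_one_eq_two]; exact this
  let d : Fin (m + 3) → F := Fin.cons (-1) (Fin.cons (-1) (Fin.cons 1 fun _ => 1))
  let e : Fin (m + 3) → F := Fin.cons 1 (Fin.cons (-1) (Fin.cons (-1) fun _ => 1))
  have hd : ∀ i, d i * d i = 1 := by
    intro i
    refine Fin.cases ?_ (fun i => Fin.cases ?_ (fun i => Fin.cases ?_ (fun i => ?_) i) i) i
    · change (-1 : F) * (-1) = 1; ring
    · change (-1 : F) * (-1) = 1; ring
    · change (1 : F) * 1 = 1; ring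
    · change (1 : F) * 1 = 1; ring
  have he : ∀ i, e i * e i = 1 := by
    intro i
    refine Fin.cases ?_ (fun i => Fin.cases ?_ (fun i => Fin.cases ?_ (fun i => ?_) i) i) i
    · change (1 : F) * 1 = 1; ring
    · change (-1 : F) * (-1) = 1; ring
    · change (-1 : F) * (-1) = 1; ring
    · change (1 : F) * 1 = 1; ring
  have hD : Matrix.diagonal d * Matrix.diagonal d = 1 := by
    rw [Matrix.diagonal_mul_diagonal]
    simp only [hd]
    exact Matrix.diagonal_one
  have hE : Matrix.diagonal e * Matrix.diagonal e = 1 := by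
    rw [Matrix.diagonal_mul_diagonal]
    simp only [he]
    exact Matrix.diagonal_one
  have hns : ∀ v : Fin (m + 3) → F, (∃ i j, v i ≠ v j) →
      ¬ ∃ c : F, ∀ i j : Fin (m + 3), Matrix.diagonal v i j = if i = j then c else 0 := by
    rintro v ⟨i, j, hv⟩ ⟨c, hc⟩
    have h1 := hc i i
    have h3 := hc j j
    rw [Matrix.diagonal_apply_eq, if_pos rfl] at h1 h3
    exact hv (h1.trans h3.symm)
  let a : GL (Fin (m + 3)) F := ⟨Matrix.diagonal d, Matrix.diagonal d, hD, hD⟩
  let b : GL (Fin (m + 3)) F := ⟨Matrix.diagonal e, Matrix.diagonal e, hE, hE⟩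
  have ha : a * a = 1 := Units.ext hD
  have hb : b * b = 1 := Units.ext hE
  have hainv : a⁻¹ = a := inv_eq_of_mul_eq_one_right ha
  refine ⟨a, b, ?_, ?_, ?_, ?_, ha, hb, ?_, hns d ⟨0, 2, ?_⟩, hns e ⟨0, 1, ?_⟩, ?_⟩
  · rw [mem_P]
    intro i j _ hij
    exact Matrix.diagonal_apply_ne _ (ne_of_gt hij)
  · rw [mem_P]
    intro i j _ hij
    exact Matrix.diagonal_apply_ne _ (ne_of_gt hij)
  · change (Matrix.diagonal d).det = 1
    rw [Matrix.det_diagonal, Fin.prod_univ_succ, Fin.prod_univ_succ, Fin.prod_univ_succ]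
    change (-1 : F) * ((-1) * (1 * ∏ _i : Fin m, (1 : F))) = 1
    rw [Finset.prod_const_one]; ring
  · change (Matrix.diagonal e).det = 1
    rw [Matrix.det_diagonal, Fin.prod_univ_succ, Fin.prod_univ_succ, Fin.prod_univ_succ]
    change (1 : F) * ((-1) * ((-1) * ∏ _i : Fin m, (1 : F))) = 1
    rw [Finset.prod_const_one]; ring
  · apply Units.ext
    change Matrix.diagonal d * Matrix.diagonal e = Matrix.diagonal e * Matrix.diagonal d
    rw [Matrix.diagonal_mul_diagonal, Matrix.diagonal_mul_diagonal]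
    congr 1
    funext i
    ring
  · change (-1 : F) ≠ 1
    exact hneg
  · change (1 : F) ≠ -1
    exact hneg.symm
  · rw [hainv]
    have h3 : (a * b).1 = Matrix.diagonal fun i => d i * e i := by
      change Matrix.diagonal d * Matrix.diagonal e = _
      rw [Matrix.diagonal_mul_diagonal]
    rintro ⟨c, hc⟩
    rw [h3] at hc
    refine hns _ ⟨0, 1, ?_⟩ ⟨c, hc⟩
    change (-1 : F) * 1 ≠ (-1) * (-1)
    simpa using hneg

theorem t_INV : S_INV := by
  intro F _ _ _ n h
  by_cases h2 : (2 : F) = 0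
  · rcases h with h | ⟨h, hc, hF⟩
    · obtain ⟨m, rfl⟩ := Nat.exists_eq_add_of_le' h
      have e2 : 2 % (m + 2 + 1) = 2 := Nat.mod_eq_of_lt (by omega)
      have e20 : (0 : Fin (m + 2 + 1)) ≠ 2 := by
        simp [Fin.ext_iff, e2]
      have e21 : (1 : Fin (m + 2 + 1)) ≠ 2 := by
        simp [Fin.ext_iff, e2]
      have e01 : (0 : Fin (m + 2 + 1)) ≠ 1 := by
        simp
      refine char_two h2 (m + 2) rfl (Pi.single 1 1) (Pi.single 2 1) ?_ ?_ ⟨1, e01.symm, ?_⟩
        ⟨2, e20.symm, ?_⟩ ⟨1, e01.symm, ?_⟩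
      · exact Pi.single_eq_of_ne e01 _
      · exact Pi.single_eq_of_ne e20 _
      · simp
      · simp
      · rw [Pi.single_eq_same, Pi.single_eq_of_ne e21, add_zero]
        exact one_ne_zero
    · subst h
      obtain ⟨c, hc0, hc1⟩ : ∃ c : F, c ≠ 0 ∧ c ≠ 1 := by
        by_contra hcon
        push Not at hcon
        have h3 : (Finset.univ : Finset F) ⊆ {0, 1} := by
          intro c _
          by_cases h0 : c = 0
          · simp [h0]
          · simp [hcon c h0]
        have h4 := Finset.card_le_card h3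
        rw [Finset.card_univ] at h4
        have h5 : ({0, 1} : Finset F).card ≤ 2 := Finset.card_le_two
        omega
      refine char_two h2 1 rfl (Pi.single 1 1) (Pi.single 1 c) ?_ ?_ ⟨1, ?_, ?_⟩ ⟨1, ?_, ?_⟩
        ⟨1, ?_, ?_⟩
      · exact Pi.single_eq_of_ne (by simp) _
      · exact Pi.single_eq_of_ne (by simp) _
      · simp
      · simp
      · simp
      · simpa using hc0
      · simp
      · rw [Pi.single_eq_same, Pi.single_eq_same]
        intro h
        apply hc1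
        have : c = 1 - 2 + (1 + c) - 0 := by ring
        rw [this, h, h2]; ring
  · rcases h with h | ⟨h, hc, hF⟩
    · obtain ⟨m, rfl⟩ := Nat.exists_eq_add_of_le' h
      exact char_ne_two h2 m rfl
    · exact absurd (by exact_mod_cast (CharP.cast_eq_zero F 2)) h2

end H50.LG
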